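import Pool.Agent.H98.EX.BTargets
import Pool.Agent.H19.EX.PBas
import Pool.Agent.H17.CRX.PFM
import Pool.Agent.H64.SLN.CMT
import Pool.Agent.H1.EX.WBA

/-!
# Row PR1 of the board exa_modules: the integrals of a pair, with the two-sided sums (helper76)
-/

set_option autoImplicit false

open MeasureTheory ProbabilityTheory Filter Topology
open scoped ENNReal
open Pool.Agent.H95 Pool.Agent.H95.Cop
open Pool.Agent.H55.CG (Mo)
open Pool.Agent.H99.CE (PF BX w0)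
open Pool.Agent.H98.SLN (TS)
open Pool.Agent.H98.EX
open Pool.Agent.H19.EX (meas_H dep_H meas_be dep_be meas_Sy dep_Sy Sy_shift wr_wc)
open Pool.Agent.H1.EX (wb_mVR wb_mVL wb_mQ wb_q1 wb_pos wb_le1 wb_iint wb_in0 wb_inle wb_oint
  wb_h1 wb_VR0 wb_VL0)

namespace Pool.Agent.H76.EX

/-! ## Cells -/

lemma VR_congr {n : ℕ} {y y' : ℕ → ℝ} (h : ∀ i < n, y i = y' i) : VR n y = VR n y' := by
  unfold VR H
  refine Finset.sum_congr rfl fun i hi => ?_
  rw [Finset.mem_range] at hi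
  rw [Finset.sum_congr rfl fun j hj => h j (by rw [Finset.mem_Ico] at hj; omega)]

lemma VL_congr {n : ℕ} {y y' : ℕ → ℝ} (h : ∀ i < n, y i = y' i) : VL n y = VL n y' := by
  unfold VL H
  refine Finset.sum_congr rfl fun i hi => ?_
  rw [Finset.mem_range] at hi
  rw [Finset.sum_congr rfl fun j hj => h j (by rw [Finset.mem_Ico] at hj; omega)]

lemma yk_shift (k : ℕ) (ϑ : ℝ) (a : ℕ) (x : ℕ → ℝ) :
    yk k ϑ (shift (a * k) x) = shift a (yk k ϑ x) := by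
  funext i
  rw [shift_apply]
  unfold yk
  rw [H_shift]
  have h1 : i * k + a * k = (i + a) * k := by ring
  have h2 : (i + 1) * k + a * k = (i + a + 1) * k := by ring
  rw [h1, h2]

lemma yk_dep {k : ℕ} (ϑ : ℝ) {n : ℕ} {x x' : ℕ → ℝ} (h : ∀ j < n * k, x j = x' j) :
    ∀ i < n, yk k ϑ x i = yk k ϑ x' i := by
  intro i hi
  unfold yk
  rw [dep_H _ _ x x' fun j hj => h j (lt_of_lt_of_le hj (Nat.mul_le_mul_right k hi))]

lemma meas_yki (k : ℕ) (ϑ : ℝ) (i : ℕ) : Measurable fun x : ℕ → ℝ => yk k ϑ x i := by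
  unfold yk
  exact ((meas_H _ _).div_const 2).add_const _

lemma meas_yk (k : ℕ) (ϑ : ℝ) : Measurable (yk k ϑ) :=
  measurable_pi_lambda _ fun i => meas_yki k ϑ i

lemma meas_rv (n : ℕ) : Measurable (rv n) :=
  measurable_pi_lambda _ fun i => by
    unfold rv
    split_ifs
    · exact measurable_pi_apply _
    · exact measurable_pi_apply _

/-! ## The outside integrated -/

/-- the two-sided sum at an end, the outside integrated -/
noncomputable def FF (ρ : Measure ℝ) (p : ℝ) (R : ℕ) (u : ℕ → ℝ) : ℝ :=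
  ∫ y : ℕ → ℝ, (1 + VR R u + VL R y) ^ (-p) ∂(iid ρ)

lemma FF_nonneg (ρ : Measure ℝ) [IsProbabilityMeasure ρ] (p : ℝ) (R : ℕ) (u : ℕ → ℝ) :
    0 ≤ FF ρ p R u := wb_in0 ρ R R u p

lemma FF_le_one (ρ : Measure ℝ) [IsProbabilityMeasure ρ] {p : ℝ} (hp : 0 ≤ p) (R : ℕ)
    (u : ℕ → ℝ) : FF ρ p R u ≤ 1 :=
  (wb_inle ρ R R u hp).trans (wb_le1 (wb_h1 R u) hp)

lemma meas_FF (ρ : Measure ℝ) [IsProbabilityMeasure ρ] (p : ℝ) (R : ℕ) :
    Measurable (FF ρ p R) :=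
  (StronglyMeasurable.integral_prod_right
    (f := fun (z : ℕ → ℝ) (y : ℕ → ℝ) => (1 + VR R z + VL R y) ^ (-p))
    (wb_mQ p R R).stronglyMeasurable).measurable

lemma FF_dep (ρ : Measure ℝ) (p : ℝ) {R : ℕ} {u u' : ℕ → ℝ} (h : ∀ i < R, u i = u' i) :
    FF ρ p R u = FF ρ p R u' := by
  unfold FF
  rw [VR_congr h]

lemma lint_FF (ρ : Measure ℝ) [IsProbabilityMeasure ρ] {p : ℝ} (hp : 0 ≤ p) (R : ℕ)
    (u : ℕ → ℝ) : ∫⁻ y : ℕ → ℝ, ENNReal.ofReal ((1 + VR R u + VL R y) ^ (-p)) ∂(iid ρ) =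
      ENNReal.ofReal (FF ρ p R u) :=
  (ofReal_integral_eq_lintegral_ofReal (wb_iint ρ R R u hp)
    (Eventually.of_forall fun y => (wb_pos p (wb_q1 R R u y)).le)).symm

/-- Jensen's inequality -/
lemma FF_sq (ρ : Measure ℝ) [IsProbabilityMeasure ρ] {p : ℝ} (hp : 0 ≤ p) (R : ℕ)
    (u : ℕ → ℝ) : FF ρ p R u ^ 2 ≤ FF ρ (2 * p) R u := by
  set m := FF ρ p R u with hm
  have h1 : ∀ y : ℕ → ℝ, 2 * m * (1 + VR R u + VL R y) ^ (-p) - m ^ 2 ≤
      (1 + VR R u + VL R y) ^ (-(2 * p)) := by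
    intro y
    have h2 : (1 + VR R u + VL R y) ^ (-(2 * p)) = ((1 + VR R u + VL R y) ^ (-p)) ^ 2 := by
      rw [← Real.rpow_natCast, ← Real.rpow_mul (by linarith [wb_q1 R R u y])]
      congr 1
      push_cast
      ring
    rw [h2]
    nlinarith [sq_nonneg ((1 + VR R u + VL R y) ^ (-p) - m)]
  have h3 := integral_mono (((wb_iint ρ R R u hp).const_mul (2 * m)).sub (integrable_const (m ^ 2)))
    (wb_iint ρ R R u (by linarith : 0 ≤ 2 * p)) h1
  have h4 : ∫ y : ℕ → ℝ, (2 * m * (1 + VR R u + VL R y) ^ (-p) - m ^ 2) ∂(iid ρ) =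
      2 * m * m - m ^ 2 := by
    rw [integral_sub ((wb_iint ρ R R u hp).const_mul (2 * m)) (integrable_const (m ^ 2)),
      integral_const_mul]
    simp only [integral_const, probReal_univ, smul_eq_mul, one_mul]
    rfl
  have h5 : 2 * m * m - m ^ 2 ≤ FF ρ (2 * p) R u := by
    rw [← h4]
    exact h3
  nlinarith

/-! ## The blocks -/

lemma fub1 (ν : Measure ℝ) [IsProbabilityMeasure ν] (t : ℕ) {E : (ℕ → ℝ) → ℝ≥0∞}
    (hE : Measurable E) : ∫⁻ x, E x ∂(iid ν) =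
      ∫⁻ z, ∫⁻ x, E (splice t (x, z)) ∂(iid ν) ∂(iid ν) := by
  rw [← (measurePreserving_splice ν t).lintegral_comp hE]
  exact lintegral_prod_symm' _ (hE.comp (measurable_splice t))

lemma fub2 (ν : Measure ℝ) [IsProbabilityMeasure ν] (t : ℕ) {E : (ℕ → ℝ) → ℝ≥0∞}
    (hE : Measurable E) : ∫⁻ x, E x ∂(iid ν) =
      ∫⁻ z, ∫⁻ w, E (splice t (z, w)) ∂(iid ν) ∂(iid ν) := by
  rw [← (measurePreserving_splice ν t).lintegral_comp hE]
  exact lintegral_prod _ (hE.comp (measurable_splice t)).aemeasurable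

lemma meas_NL (p : ℝ) (k : ℕ) (ϑ : ℝ) (R : ℕ) :
    Measurable fun x : ℕ → ℝ => ENNReal.ofReal (NL R (yk k ϑ x) R ^ (-p)) := by
  unfold NL
  refine ENNReal.measurable_ofReal.comp (Measurable.pow_const ?_ _)
  refine (measurable_const.add ((wb_mVR R).comp ((measurable_shift R).comp (meas_yk k ϑ)))).add
    ((wb_mVL R).comp (measurable_pi_lambda _ fun j => ?_))
  exact meas_yki k ϑ _

/-- the last end of the stretch -/
noncomputable def NZ (k : ℕ) (ϑ : ℝ) (R d : ℕ) (z : ℕ → ℝ) : ℝ :=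
  1 + VR R (fun j => yk k ϑ z (d - j)) + VL R (shift (d + 1) (yk k ϑ z))

lemma meas_NZ (p : ℝ) (k : ℕ) (ϑ : ℝ) (R d : ℕ) :
    Measurable fun z : ℕ → ℝ => ENNReal.ofReal (NZ k ϑ R d z ^ (-p)) := by
  unfold NZ
  refine ENNReal.measurable_ofReal.comp (Measurable.pow_const ?_ _)
  refine (measurable_const.add ((wb_mVR R).comp (measurable_pi_lambda _ fun j => ?_))).add
    ((wb_mVL R).comp ((measurable_shift (d + 1)).comp (meas_yk k ϑ)))
  exact meas_yki k ϑ _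

/-- the left block integrated -/
lemma left {ν : Measure ℝ} [IsProbabilityMeasure ν] {k : ℕ} {ϑ : ℝ} {R : ℕ}
    (hmp : MeasurePreserving (fun x => rv R (yk k ϑ x)) (iid ν) (iid (rl ν k ϑ)))
    [IsProbabilityMeasure (rl ν k ϑ)] {p : ℝ} (hp : 0 ≤ p) {G : (ℕ → ℝ) → ℝ≥0∞}
    (hG : Measurable G) :
    ∫⁻ x, ENNReal.ofReal (NL R (yk k ϑ x) R ^ (-p)) * G (shift (R * k) x) ∂(iid ν) =
      ∫⁻ z, ENNReal.ofReal (FF (rl ν k ϑ) p R (yk k ϑ z)) * G z ∂(iid ν) := by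
  rw [fub1 ν (R * k) (E := fun x => ENNReal.ofReal (NL R (yk k ϑ x) R ^ (-p)) *
    G (shift (R * k) x)) ((meas_NL p k ϑ R).mul (hG.comp (measurable_shift _)))]
  refine lintegral_congr fun z => ?_
  have h1 : ∀ x : ℕ → ℝ, NL R (yk k ϑ (splice (R * k) (x, z))) R =
      1 + VR R (yk k ϑ z) + VL R (rv R (yk k ϑ x)) := by
    intro x
    unfold NL
    rw [← yk_shift, shift_splice]
    congr 1
    refine VL_congr fun j hj => ?_
    have h2 := yk_dep (k := k) ϑ (n := R) (x := splice (R * k) (x, z)) (x' := x)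
      (fun j hj => by simp [splice, hj]) (R - 1 - j) (by omega)
    rw [h2]
    unfold rv
    rw [if_pos hj, Nat.sub_right_comm]
  simp only [h1, shift_splice]
  have hm : Measurable fun y : ℕ → ℝ =>
      ENNReal.ofReal ((1 + VR R (yk k ϑ z) + VL R y) ^ (-p)) :=
    ENNReal.measurable_ofReal.comp ((measurable_const.add (wb_mVL R)).pow_const _)
  have hm2 : Measurable fun x : ℕ → ℝ =>
      ENNReal.ofReal ((1 + VR R (yk k ϑ z) + VL R (rv R (yk k ϑ x))) ^ (-p)) :=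
    hm.comp hmp.measurable
  rw [lintegral_mul_const _ hm2]
  congr 1
  rw [← lint_FF (rl ν k ϑ) hp R (yk k ϑ z)]
  exact hmp.lintegral_comp hm

/-- the right block integrated -/
lemma right {ν : Measure ℝ} [IsProbabilityMeasure ν] {k : ℕ} {ϑ : ℝ} {R d : ℕ} (hRd : R ≤ d + 1)
    (hmp : MeasurePreserving (yk k ϑ) (iid ν) (iid (rl ν k ϑ)))
    [IsProbabilityMeasure (rl ν k ϑ)] {p : ℝ} (hp : 0 ≤ p) {F : (ℕ → ℝ) → ℝ≥0∞}
    (hF : Measurable F) (dF : DepLt ((d + 1) * k) F) :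
    ∫⁻ z, ENNReal.ofReal (NZ k ϑ R d z ^ (-p)) * F z ∂(iid ν) =
      ∫⁻ z, ENNReal.ofReal (FF (rl ν k ϑ) p R
        (rv R (yk k ϑ (shift ((d + 1 - R) * k) z)))) * F z ∂(iid ν) := by
  rw [fub2 ν ((d + 1) * k) (E := fun z => ENNReal.ofReal (NZ k ϑ R d z ^ (-p)) * F z)
    ((meas_NZ p k ϑ R d).mul hF)]
  refine lintegral_congr fun z => ?_
  have h1 : ∀ w : ℕ → ℝ, NZ k ϑ R d (splice ((d + 1) * k) (z, w)) =
      1 + VR R (fun j => yk k ϑ z (d - j)) + VL R (yk k ϑ w) := by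
    intro w
    unfold NZ
    rw [← yk_shift, shift_splice]
    congr 2
    refine VR_congr fun j hj => ?_
    exact yk_dep (k := k) ϑ (n := d + 1) (x := splice ((d + 1) * k) (z, w)) (x' := z)
      (fun j hj => by simp [splice, hj]) (d - j) (by omega)
  simp only [h1, dF.splice_eq]
  have hm : Measurable fun y : ℕ → ℝ =>
      ENNReal.ofReal ((1 + VR R (fun j => yk k ϑ z (d - j)) + VL R y) ^ (-p)) :=
    ENNReal.measurable_ofReal.comp ((measurable_const.add (wb_mVL R)).pow_const _)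
  have hm2 : Measurable fun w : ℕ → ℝ =>
      ENNReal.ofReal ((1 + VR R (fun j => yk k ϑ z (d - j)) + VL R (yk k ϑ w)) ^ (-p)) :=
    hm.comp hmp.measurable
  rw [lintegral_mul_const _ hm2]
  congr 1
  have h3 : FF (rl ν k ϑ) p R (rv R (yk k ϑ (shift ((d + 1 - R) * k) z))) =
      FF (rl ν k ϑ) p R (fun j => yk k ϑ z (d - j)) := by
    refine FF_dep _ _ fun j hj => ?_
    rw [yk_shift]
    unfold rv
    rw [if_pos hj, shift_apply]
    congr 1
    omega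
  rw [h3, ← lint_FF (rl ν k ϑ) hp R]
  exact hmp.lintegral_comp hm

/-- all outside cells integrated -/
lemma core {ν : Measure ℝ} [IsProbabilityMeasure ν] {k : ℕ} {ϑ : ℝ} {R d : ℕ} (hRd : R ≤ d)
    (hmp : MeasurePreserving (yk k ϑ) (iid ν) (iid (rl ν k ϑ)))
    (hmr : MeasurePreserving (fun x => rv R (yk k ϑ x)) (iid ν) (iid (rl ν k ϑ)))
    [IsProbabilityMeasure (rl ν k ϑ)] {θ : ℝ} (hp : 0 ≤ 1 - θ) {W : (ℕ → ℝ) → ℝ≥0∞}
    (hW : Measurable W) (dW : DepLt ((d + 1) * k) W) :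
    ∫⁻ x, ENNReal.ofReal ((NL R (yk k ϑ x) R * NR R (yk k ϑ x) (R + d)) ^ (θ - 1)) *
      W (shift (R * k) x) ∂(iid ν) =
    ∫⁻ z, ENNReal.ofReal (FF (rl ν k ϑ) (1 - θ) R (yk k ϑ z)) *
      ENNReal.ofReal (FF (rl ν k ϑ) (1 - θ) R
        (rv R (yk k ϑ (shift ((d + 1 - R) * k) z)))) * W z ∂(iid ν) := by
  have h1 : ∀ x : ℕ → ℝ,
      ENNReal.ofReal ((NL R (yk k ϑ x) R * NR R (yk k ϑ x) (R + d)) ^ (θ - 1)) *
        W (shift (R * k) x) = ENNReal.ofReal (NL R (yk k ϑ x) R ^ (-(1 - θ))) *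
        (fun z => ENNReal.ofReal (NZ k ϑ R d z ^ (-(1 - θ))) * W z) (shift (R * k) x) := by
    intro x
    have h2 : NR R (yk k ϑ x) (R + d) = NZ k ϑ R d (shift (R * k) x) := by
      unfold NR NZ
      rw [yk_shift, shift_shift]
      have h3 : d + 1 + R = R + d + 1 := by omega
      rw [h3]
      congr 2
      refine VR_congr fun j hj => ?_
      rw [shift_apply]
      congr 1
      omega
    have h4 : 0 ≤ NL R (yk k ϑ x) R := by
      unfold NL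
      linarith [wb_VR0 R (shift R (yk k ϑ x)), wb_VL0 R fun j => yk k ϑ x (R - 1 - j)]
    have h5 : 0 ≤ NZ k ϑ R d (shift (R * k) x) := by
      unfold NZ
      linarith [wb_VR0 R fun j => yk k ϑ (shift (R * k) x) (d - j),
        wb_VL0 R (shift (d + 1) (yk k ϑ (shift (R * k) x)))]
    rw [h2, Real.mul_rpow h4 h5, ENNReal.ofReal_mul (Real.rpow_nonneg h4 _), neg_sub, mul_assoc]
  rw [lintegral_congr h1, left hmr hp (G := fun z =>
    ENNReal.ofReal (NZ k ϑ R d z ^ (-(1 - θ))) * W z) ((meas_NZ (1 - θ) k ϑ R d).mul hW)]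
  have h6 : ∀ z : ℕ → ℝ, ENNReal.ofReal (FF (rl ν k ϑ) (1 - θ) R (yk k ϑ z)) *
      (ENNReal.ofReal (NZ k ϑ R d z ^ (-(1 - θ))) * W z) =
      ENNReal.ofReal (NZ k ϑ R d z ^ (-(1 - θ))) *
        (fun z => ENNReal.ofReal (FF (rl ν k ϑ) (1 - θ) R (yk k ϑ z)) * W z) z := by
    intro z
    ring
  rw [lintegral_congr h6, right (by omega) hmp hp
    (F := fun z => ENNReal.ofReal (FF (rl ν k ϑ) (1 - θ) R (yk k ϑ z)) * W z)
    ((ENNReal.measurable_ofReal.comp ((meas_FF _ _ _).comp (meas_yk k ϑ))).mul hW) ?_]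
  · refine lintegral_congr fun z => ?_
    ring
  · intro x x' hx
    have h7 : FF (rl ν k ϑ) (1 - θ) R (yk k ϑ x) = FF (rl ν k ϑ) (1 - θ) R (yk k ϑ x') :=
      FF_dep _ _ fun i hi => yk_dep ϑ hx i (by omega)
    simp only
    rw [h7, dW x x' hx]

/-! ## The means of the functions of the ends -/

lemma mean_f {ρ ϖ : Measure ℝ} [IsProbabilityMeasure ρ] [IsProbabilityMeasure ϖ] {θ p : ℝ}
    {R : ℕ} {φ : (ℕ → ℝ) → ℕ → ℝ} (hp : 0 ≤ p) [IsProbabilityMeasure (ρ.tilted fun t => θ * t)]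
    (hφ : MeasurePreserving φ (iid ϖ) (iid (ρ.tilted fun t => θ * t))) :
    ∫⁻ z, ENNReal.ofReal (FF ρ p R (φ z)) ∂(iid ϖ) = ENNReal.ofReal (QQ ρ θ p R R) := by
  have h1 := hφ.lintegral_comp (f := fun z => ENNReal.ofReal (FF ρ p R z))
    (ENNReal.measurable_ofReal.comp (meas_FF ρ p R))
  rw [h1]
  exact (ofReal_integral_eq_lintegral_ofReal (wb_oint ρ (ρ.tilted fun t => θ * t) R R hp)
    (Eventually.of_forall fun z => wb_in0 ρ R R z p)).symm

lemma mean_sq {ρ ϖ : Measure ℝ} [IsProbabilityMeasure ρ] [IsProbabilityMeasure ϖ] {θ p : ℝ}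
    {R : ℕ} {φ : (ℕ → ℝ) → ℕ → ℝ} (hp : 0 ≤ p) [IsProbabilityMeasure (ρ.tilted fun t => θ * t)]
    (hφ : MeasurePreserving φ (iid ϖ) (iid (ρ.tilted fun t => θ * t))) :
    ∫⁻ z, ENNReal.ofReal (FF ρ p R (φ z)) ^ (2 : ℝ) ∂(iid ϖ) ≤
      ENNReal.ofReal (QQ ρ θ (2 * p) R R) := by
  rw [← mean_f (by linarith : 0 ≤ 2 * p) hφ]
  refine lintegral_mono fun z => ?_
  have h1 := FF_nonneg ρ p R (φ z)
  rw [ENNReal.ofReal_rpow_of_nonneg h1 (by norm_num)]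
  refine ENNReal.ofReal_le_ofReal ?_
  have h2 : FF ρ p R (φ z) ^ (2 : ℝ) = FF ρ p R (φ z) ^ 2 := by
    rw [← Real.rpow_natCast]
    norm_num
  rw [h2]
  exact FF_sq ρ hp R (φ z)

lemma QQ0 (ρ : Measure ℝ) [IsProbabilityMeasure ρ] (θ p : ℝ) (R : ℕ) : 0 ≤ QQ ρ θ p R R :=
  integral_nonneg fun z => wb_in0 ρ R R z p

lemma brk {ρ ϖ : Measure ℝ} [IsProbabilityMeasure ρ] [IsProbabilityMeasure ϖ] {θ p e : ℝ}
    {R : ℕ} {φ : (ℕ → ℝ) → ℕ → ℝ} (hp : 0 ≤ p) [IsProbabilityMeasure (ρ.tilted fun t => θ * t)]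
    (hφ : MeasurePreserving φ (iid ϖ) (iid (ρ.tilted fun t => θ * t))) :
    ∫⁻ z, ENNReal.ofReal (FF ρ p R (φ z)) ∂(iid ϖ) + ENNReal.ofReal (Real.sqrt e) *
      (∫⁻ z, ENNReal.ofReal (FF ρ p R (φ z)) ^ (2 : ℝ) ∂(iid ϖ)) ^ (1 / 2 : ℝ) ≤
    ENNReal.ofReal (QQ ρ θ p R R + Real.sqrt e * Real.sqrt (QQ ρ θ (2 * p) R R)) := by
  rw [mean_f hp hφ, ENNReal.ofReal_add (QQ0 _ _ _ _) (by positivity)]
  refine add_le_add le_rfl ?_
  rw [ENNReal.ofReal_mul (Real.sqrt_nonneg _)]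
  refine mul_le_mul' le_rfl ?_
  rw [Real.sqrt_eq_rpow, ← ENNReal.ofReal_rpow_of_nonneg (QQ0 _ _ _ _) (by norm_num)]
  exact ENNReal.rpow_le_rpow (mean_sq hp hφ) (by norm_num)

/-! ## The inside block -/

lemma meas_NC (K : PMF ℕ) (k d : ℕ) : Measurable (NC (wc K k) be k d) := by
  obtain ⟨h1, -⟩ := Pool.Agent.H17.CRX.pf_PFM
  have hP := (h1 (wc K k) (wr_wc K k)).1
  unfold NC
  refine Finset.measurable_sum _ fun e _ => Finset.measurable_sum _ fun r _ => ?_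
  split_ifs
  · exact ((meas_be 0 e).mul ((hP _).1.comp (measurable_shift e))).mul (meas_be _ _)
  · exact measurable_const

lemma dep_NC (K : PMF ℕ) (k d : ℕ) : DepLt ((d + 1) * k) (NC (wc K k) be k d) := by
  obtain ⟨h1, -⟩ := Pool.Agent.H17.CRX.pf_PFM
  have hP := (h1 (wc K k) (wr_wc K k)).1
  intro x x' hx
  unfold NC
  refine Finset.sum_congr rfl fun e he => Finset.sum_congr rfl fun r hr => ?_
  rw [Finset.mem_range] at he hr
  have hk : (d + 1) * k = d * k + k := by ring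
  by_cases hc : e ≤ d * k + r
  · rw [if_pos hc, if_pos hc]
    have h2 : be x 0 e = be x' 0 e :=
      (dep_be 0 e).mono (by omega : e ≤ (d + 1) * k) x x' hx
    have h3 : be x (d * k + r) ((d + 1) * k) = be x' (d * k + r) ((d + 1) * k) :=
      dep_be (d * k + r) ((d + 1) * k) x x' hx
    rw [h2, h3]
    congr 2
    refine (hP _).2.1 _ _ fun i hi => ?_
    simp only [shift_apply]
    exact hx _ (by omega)
  · rw [if_neg hc, if_neg hc]

lemma Sy_eq {k : ℕ} (hk : 1 ≤ k) (ϑ : ℝ) (x : ℕ → ℝ) (d : ℕ) :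
    Sy k ϑ x 0 ((d + 1) * k) = H x 0 ((d + 1) * k) / 2 + ((d : ℝ) + 1) * ϑ / 2 := by
  have hk' : (k : ℝ) ≠ 0 := by positivity
  unfold Sy
  push_cast
  field_simp
  ring

/-- change of the measure, with the functions of the ends -/
lemma chg {ν : Measure ℝ} [IsProbabilityMeasure ν]
    (hexp : ∀ t : ℝ, Integrable (fun z => Real.exp (t * z)) ν) {k : ℕ} {ϑ : ℝ} {R d : ℕ}
    (hRd : R ≤ d) (hmp : MeasurePreserving (yk k ϑ) (iid ν) (iid (rl ν k ϑ)))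
    (hmr : MeasurePreserving (fun x => rv R (yk k ϑ x)) (iid ν) (iid (rl ν k ϑ)))
    [IsProbabilityMeasure (rl ν k ϑ)] {θ : ℝ} (hp : 0 ≤ 1 - θ) {c : ℝ}
    {X : (ℕ → ℝ) → ℝ≥0∞} (hX : Measurable X) (dX : DepLt ((d + 1) * k) X) :
    ∫⁻ x, ENNReal.ofReal ((NL R (yk k ϑ x) R * NR R (yk k ϑ x) (R + d)) ^ (θ - 1)) *
      (fun z => ENNReal.ofReal (Real.exp (θ / 2 * H z 0 ((d + 1) * k))) *
        (ENNReal.ofReal c * X z)) (shift (R * k) x) ∂(iid ν) =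
    ENNReal.ofReal (Mo ν (θ / 2) ^ ((d + 1) * k)) * (ENNReal.ofReal c *
      ∫⁻ z, ENNReal.ofReal (FF (rl ν k ϑ) (1 - θ) R (yk k ϑ z)) *
        ENNReal.ofReal (FF (rl ν k ϑ) (1 - θ) R
          (rv R (yk k ϑ (shift ((d + 1 - R) * k) z)))) * X z
        ∂(iid (ν.tilted fun t => θ / 2 * t))) := by
  have mf : Measurable fun z : ℕ → ℝ =>
      ENNReal.ofReal (FF (rl ν k ϑ) (1 - θ) R (yk k ϑ z)) :=
    ENNReal.measurable_ofReal.comp ((meas_FF _ _ _).comp (meas_yk k ϑ))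
  have mg : Measurable fun z : ℕ → ℝ => ENNReal.ofReal (FF (rl ν k ϑ) (1 - θ) R
      (rv R (yk k ϑ (shift ((d + 1 - R) * k) z)))) :=
    ENNReal.measurable_ofReal.comp ((meas_FF _ _ _).comp ((meas_rv R).comp
      ((meas_yk k ϑ).comp (measurable_shift _))))
  have mY : Measurable fun z : ℕ → ℝ =>
      ENNReal.ofReal (FF (rl ν k ϑ) (1 - θ) R (yk k ϑ z)) *
        ENNReal.ofReal (FF (rl ν k ϑ) (1 - θ) R
          (rv R (yk k ϑ (shift ((d + 1 - R) * k) z)))) * X z := (mf.mul mg).mul hX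
  have mH : Measurable fun z : ℕ → ℝ =>
      ENNReal.ofReal (Real.exp (θ / 2 * H z 0 ((d + 1) * k))) :=
    ENNReal.measurable_ofReal.comp (Real.measurable_exp.comp ((meas_H 0 _).const_mul _))
  rw [core hRd hmp hmr hp (W := fun z =>
    ENNReal.ofReal (Real.exp (θ / 2 * H z 0 ((d + 1) * k))) * (ENNReal.ofReal c * X z))
    (mH.mul (hX.const_mul _)) ?_]
  · obtain ⟨-, -, hcm⟩ := Pool.Agent.H64.SLN.pf_CMT ν hexp (θ / 2)
    have h1 : ∀ z : ℕ → ℝ, ENNReal.ofReal (FF (rl ν k ϑ) (1 - θ) R (yk k ϑ z)) *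
        ENNReal.ofReal (FF (rl ν k ϑ) (1 - θ) R
          (rv R (yk k ϑ (shift ((d + 1 - R) * k) z)))) *
          (ENNReal.ofReal (Real.exp (θ / 2 * H z 0 ((d + 1) * k))) * (ENNReal.ofReal c * X z)) =
        ENNReal.ofReal (Real.exp (θ / 2 * H z 0 ((d + 1) * k))) * (ENNReal.ofReal c *
        (ENNReal.ofReal (FF (rl ν k ϑ) (1 - θ) R (yk k ϑ z)) *
        ENNReal.ofReal (FF (rl ν k ϑ) (1 - θ) R
          (rv R (yk k ϑ (shift ((d + 1 - R) * k) z)))) * X z)) := by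
      intro z
      ring
    rw [lintegral_congr h1, hcm ((d + 1) * k) _ (mY.const_mul _) ?_, lintegral_const_mul _ mY]
    intro x x' hx
    have h7 : FF (rl ν k ϑ) (1 - θ) R (yk k ϑ x) = FF (rl ν k ϑ) (1 - θ) R (yk k ϑ x') :=
      FF_dep _ _ fun i hi => yk_dep ϑ hx i (by omega)
    have h8 : FF (rl ν k ϑ) (1 - θ) R (rv R (yk k ϑ (shift ((d + 1 - R) * k) x))) =
        FF (rl ν k ϑ) (1 - θ) R (rv R (yk k ϑ (shift ((d + 1 - R) * k) x'))) := by
      refine FF_dep _ _ fun i hi => ?_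
      unfold rv
      rw [if_pos hi, if_pos hi, yk_shift, yk_shift, shift_apply, shift_apply]
      exact yk_dep ϑ hx _ (by omega)
    simp only
    rw [h7, h8, dX x x' hx]
  · intro x x' hx
    simp only
    rw [dep_H 0 ((d + 1) * k) x x' hx, dX x x' hx]

/-- the constants -/
lemma cst {ν : Measure ℝ} {k d : ℕ} {ϑ ε τ δ θ b : ℝ} (h0 : 0 ≤ Mo ν (θ / 2))
    (hup : Mo ν (θ / 2) ^ k ≤
      Real.exp (ϑ * (2 * (θ / 2) ^ 2 - 2 * (θ / 2) * (3 / 4 + ε)) + τ))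
    (hb : b ≤ ϑ * θ * (3 / 4 + ε) - ϑ * (θ ^ 2 / 2) - τ - kap ϑ ε θ τ δ) :
    Mo ν (θ / 2) ^ ((d + 1) * k) * Real.exp (b * ((d : ℝ) + 1)) ≤
      Real.exp (-(kap ϑ ε θ τ δ * ((d : ℝ) + 1))) := by
  have h1 : Mo ν (θ / 2) ^ ((d + 1) * k) ≤
      Real.exp ((ϑ * (2 * (θ / 2) ^ 2 - 2 * (θ / 2) * (3 / 4 + ε)) + τ) * ((d : ℝ) + 1)) := by
    rw [mul_comm (d + 1) k, pow_mul]
    have h2 := pow_le_pow_left₀ (pow_nonneg h0 k) hup (d + 1)
    refine h2.trans (le_of_eq ?_)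
    rw [← Real.exp_nat_mul]
    congr 1
    push_cast
    ring
  refine (mul_le_mul_of_nonneg_right h1 (Real.exp_pos _).le).trans ?_
  rw [← Real.exp_add, Real.exp_le_exp]
  have h3 : (0 : ℝ) ≤ (d : ℝ) + 1 := by positivity
  nlinarith [mul_le_mul_of_nonneg_right hb h3]

lemma VH_nonneg (K : PMF ℕ) (k : ℕ) {ϑ : ℝ} (hϑ : 0 ≤ ϑ) : 0 ≤ VH K k ϑ := by
  unfold VH TS
  exact div_nonneg (by positivity) (Finset.sum_nonneg fun n _ => tailK_nonneg K _)

lemma Sy_sh (k : ℕ) (ϑ : ℝ) (x : ℕ → ℝ) (R d : ℕ) :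
    Sy k ϑ x (R * k) ((R + d + 1) * k) = Sy k ϑ (shift (R * k) x) 0 ((d + 1) * k) := by
  rw [Sy_shift, Nat.zero_add]
  have h : (R + d + 1) * k = (d + 1) * k + R * k := by ring
  rw [h]

theorem pf_PR1 (hREV : T_REV) (hYSM : T_YSM) (hWBA : T_WBA) (hPCO : T_PCO) (hEGP : T_EGP)
    (hPE1 : T_PE1) (hPC1 : T_PC1) : T_PR1 := by
  intro K ν α c δ r ϑ ε τ ω s k q h R d hR hRd
  have hν : IsProbabilityMeasure ν := h.eg.prob
  have hexp := h.eg.exp
  have hδ0 := h.rx.rg.δ0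
  have hk : 1 ≤ k := by
    rw [Nat.one_le_iff_ne_zero]
    rintro rfl
    have := h.kϑ
    norm_num at this
  have hθ1 : te α s ≤ 5 / 8 := by
    refine le_trans ?_ h.t2
    have h1 := h.rx.rg.α0
    have h2 := h.rx.rg.δ1
    have h3 : 0 < 1 + α := by linarith
    have h4 := h.s0
    unfold te
    rw [div_le_div_iff_of_pos_right h3]
    linarith
  have hθ0 := h.t1
  set θ : ℝ := te α s with hθ
  have hp : 0 ≤ 1 - θ := by linarith
  have ep : EP (ν.tilted fun t => θ / 2 * t) k ϑ (θ - 1 / 2 - ε) (2 * τ) :=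
    hEGP ν k ϑ ε τ 3 θ h.eg le_rfl (abs_le.mpr ⟨by linarith, by linarith⟩) h.τ0
  have pb : PB (ν.tilted fun t => θ / 2 * t) k ϑ (θ - 1 / 2 - ε) (2 * τ) ω :=
    ⟨ep, hk, h.ϑ0, h.ϑ1, h.ω0, h.ω1, h.σω, h.ϑω, by linarith [h.τ0], h.τω⟩
  have pa : PA K (ν.tilted fun t => θ / 2 * t) α c δ r ϑ (θ - 1 / 2 - ε) (2 * τ) ω k q :=
    ⟨h.rx, pb, h.rϑ, h.δϑ, h.kϑ⟩
  obtain ⟨y1, y2, y3, -, y5⟩ := hYSM ν hexp k ϑ hk
  have hρt : IsProbabilityMeasure ((rl ν k ϑ).tilted fun t => θ * t) :=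
    isProbabilityMeasure_tilted (y3 θ)
  have hϖ : IsProbabilityMeasure (ν.tilted fun t => θ / 2 * t) := ep.prob
  have yr : MeasurePreserving (fun x => rv R (yk k ϑ x)) (iid ν) (iid (rl ν k ϑ)) :=
    (hREV (rl ν k ϑ) R).comp y1
  have z1 : MeasurePreserving (yk k ϑ) (iid (ν.tilted fun t => θ / 2 * t))
      (iid ((rl ν k ϑ).tilted fun t => θ * t)) := by
    rw [y5 θ]
    exact (hYSM _ ep.exp k ϑ hk).1
  have zr : MeasurePreserving (fun x => rv R (yk k ϑ x)) (iid (ν.tilted fun t => θ / 2 * t))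
      (iid ((rl ν k ϑ).tilted fun t => θ * t)) :=
    (hREV ((rl ν k ϑ).tilted fun t => θ * t) R).comp z1
  set f : (ℕ → ℝ) → ℝ≥0∞ := fun z =>
    ENNReal.ofReal (FF (rl ν k ϑ) (1 - θ) R (yk k ϑ z)) with hf
  set g : (ℕ → ℝ) → ℝ≥0∞ := fun z =>
    ENNReal.ofReal (FF (rl ν k ϑ) (1 - θ) R (rv R (yk k ϑ z))) with hg
  have mf : Measurable f :=
    ENNReal.measurable_ofReal.comp ((meas_FF _ _ _).comp (meas_yk k ϑ))
  have mg : Measurable g :=
    ENNReal.measurable_ofReal.comp ((meas_FF _ _ _).comp ((meas_rv R).comp (meas_yk k ϑ)))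
  have df : DepLt (R * k) f := by
    intro x x' hx
    simp only [hf]
    rw [FF_dep _ _ fun i hi => yk_dep ϑ hx i hi]
  have dg : DepLt (R * k) g := by
    intro x x' hx
    simp only [hg]
    rw [FF_dep (u := rv R (yk k ϑ x)) (u' := rv R (yk k ϑ x')) _ _ fun i hi => ?_]
    unfold rv
    rw [if_pos hi, if_pos hi]
    exact yk_dep ϑ hx _ (by omega)
  have f1 : ∀ x, f x ≤ 1 := fun x => by
    rw [← ENNReal.ofReal_one]
    exact ENNReal.ofReal_le_ofReal (FF_le_one _ hp _ _)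
  have g1 : ∀ x, g x ≤ 1 := fun x => by
    rw [← ENNReal.ofReal_one]
    exact ENNReal.ofReal_le_ofReal (FF_le_one _ hp _ _)
  have q0 := QQ0 (rl ν k ϑ) θ (1 - θ) R
  obtain ⟨a, ha⟩ : ∃ a : ℝ, a = QQ (rl ν k ϑ) θ (1 - θ) R R +
    Real.sqrt (Real.exp (2 * ce ϑ (2 * τ) R) - 1) *
      Real.sqrt (QQ (rl ν k ϑ) θ (2 * (1 - θ)) R R) := ⟨_, rfl⟩
  have ha0 : QQ (rl ν k ϑ) θ (1 - θ) R R ≤ a := by
    rw [ha]
    linarith [mul_nonneg (Real.sqrt_nonneg (Real.exp (2 * ce ϑ (2 * τ) R) - 1))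
      (Real.sqrt_nonneg (QQ (rl ν k ϑ) θ (2 * (1 - θ)) R R))]
  have hQ2 : Q2 (rl ν k ϑ) ϑ θ τ R = a * a := by
    rw [ha]
    unfold Q2
    rw [sq]
  have had : 0 ≤ ad ϑ ω := by
    unfold ad
    have := h.ϑ0
    have := h.ω0
    positivity
  have bf := brk (e := Real.exp (2 * ce ϑ (2 * τ) R) - 1) (R := R) hp z1
  have bg := brk (e := Real.exp (2 * ce ϑ (2 * τ) R) - 1) (R := R) hp zr
  rw [← ha] at bf bg
  have hup := h.eg.up (θ / 2) (by rw [abs_of_nonneg (by linarith)]; linarith)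
  have hM0 : 0 ≤ Mo ν (θ / 2) := integral_nonneg fun z => (Real.exp_pos _).le
  have hZ : 0 ≤ a * a * (ad ϑ ω * ((d : ℝ) + 1) + 4) + Real.exp (2 * R + 8) := by
    have := mul_self_nonneg a
    positivity
  have hV := VH_nonneg K k h.ϑ0.le
  have hsp : ENNReal.ofReal (a * a * (ad ϑ ω * ((d : ℝ) + 1) + 4) + Real.exp (2 * R + 8)) =
      ENNReal.ofReal a * ENNReal.ofReal a * ENNReal.ofReal (ad ϑ ω * (d + 1) + 4) +
        ENNReal.ofReal (Real.exp (2 * R + 8)) := by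
    have h1 := mul_self_nonneg a
    rw [ENNReal.ofReal_add (mul_nonneg h1 (by positivity)) (by positivity),
      ENNReal.ofReal_mul h1, ENNReal.ofReal_mul (q0.trans ha0)]
  rw [hQ2]
  constructor
  · have e1 : ∀ x : ℕ → ℝ,
        ENNReal.ofReal ((NL R (yk k ϑ x) R * NR R (yk k ϑ x) (R + d)) ^ (θ - 1)) *
          (ENNReal.ofReal (Sy k ϑ x (R * k) ((R + d + 1) * k)) *
          (ENNReal.ofReal (Real.exp ((θ - 1) * Sy k ϑ x (R * k) ((R + d + 1) * k))) *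
          BX (w0 K k k) k d (shift (R * k) x))) =
        ENNReal.ofReal ((NL R (yk k ϑ x) R * NR R (yk k ϑ x) (R + d)) ^ (θ - 1)) *
          (fun z => ENNReal.ofReal (Real.exp (θ / 2 * H z 0 ((d + 1) * k))) *
            (ENNReal.ofReal (Real.exp ((θ - 1) * (((d : ℝ) + 1) * ϑ / 2))) *
              (fun z => ENNReal.ofReal (Sy k ϑ z 0 ((d + 1) * k)) *
                NC (wc K k) be k d z) z)) (shift (R * k) x) := by
      intro x
      simp only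
      rw [Sy_sh, (hPCO K k).2]
      generalize shift (R * k) x = z
      have h1 : ENNReal.ofReal (Real.exp ((θ - 1) * Sy k ϑ z 0 ((d + 1) * k))) *
          ENNReal.ofReal (Real.exp (H z 0 ((d + 1) * k) / 2)) =
          ENNReal.ofReal (Real.exp (θ / 2 * H z 0 ((d + 1) * k))) *
            ENNReal.ofReal (Real.exp ((θ - 1) * (((d : ℝ) + 1) * ϑ / 2))) := by
        rw [← ENNReal.ofReal_mul (Real.exp_pos _).le, ← ENNReal.ofReal_mul (Real.exp_pos _).le,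
          ← Real.exp_add, ← Real.exp_add, Sy_eq hk]
        congr 2
        ring
      generalize ENNReal.ofReal (Sy k ϑ z 0 ((d + 1) * k)) = s1
      generalize NC (wc K k) be k d z = n1
      congr 1
      calc s1 * (ENNReal.ofReal (Real.exp ((θ - 1) * Sy k ϑ z 0 ((d + 1) * k))) *
            (ENNReal.ofReal (Real.exp (H z 0 ((d + 1) * k) / 2)) * n1)) =
          (ENNReal.ofReal (Real.exp ((θ - 1) * Sy k ϑ z 0 ((d + 1) * k))) *
            ENNReal.ofReal (Real.exp (H z 0 ((d + 1) * k) / 2))) * (s1 * n1) := by ring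
        _ = _ := by
          rw [h1]
          ring
    rw [lintegral_congr e1, chg hexp (by omega) y1 yr hp
      (X := fun z => ENNReal.ofReal (Sy k ϑ z 0 ((d + 1) * k)) * NC (wc K k) be k d z)
      ((ENNReal.measurable_ofReal.comp (meas_Sy k ϑ 0 _)).mul (meas_NC K k d)) (by
        intro x x' hx
        simp only
        rw [dep_Sy k ϑ 0 _ x x' hx, dep_NC K k d x x' hx])]
    have b1 := hPE1 K _ α c δ r ϑ _ (2 * τ) ω k q pa R d hR hRd f g mf df f1 mg dg g1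
    have b2 : ENNReal.ofReal (MD K k ϑ (2 * τ) δ d) *
        ((∫⁻ x, f x ∂(iid (ν.tilted fun t => θ / 2 * t)) +
          ENNReal.ofReal (Real.sqrt (Real.exp (2 * ce ϑ (2 * τ) R) - 1)) *
          (∫⁻ x, f x ^ (2 : ℝ) ∂(iid (ν.tilted fun t => θ / 2 * t))) ^ (1 / 2 : ℝ)) *
        (∫⁻ x, g x ∂(iid (ν.tilted fun t => θ / 2 * t)) +
          ENNReal.ofReal (Real.sqrt (Real.exp (2 * ce ϑ (2 * τ) R) - 1)) *
          (∫⁻ x, g x ^ (2 : ℝ) ∂(iid (ν.tilted fun t => θ / 2 * t))) ^ (1 / 2 : ℝ)) *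
        ENNReal.ofReal (ad ϑ ω * (d + 1) + 4) + ENNReal.ofReal (Real.exp (2 * R + 8))) ≤
        ENNReal.ofReal (MD K k ϑ (2 * τ) δ d *
          (a * a * (ad ϑ ω * ((d : ℝ) + 1) + 4) + Real.exp (2 * R + 8))) := by
      have hMD : 0 ≤ MD K k ϑ (2 * τ) δ d := by
        unfold MD
        positivity
      rw [ENNReal.ofReal_mul hMD, hsp]
      exact mul_le_mul' le_rfl (add_le_add (mul_le_mul' (mul_le_mul' bf bg) le_rfl) le_rfl)
    refine (mul_le_mul' le_rfl (mul_le_mul' le_rfl (b1.trans b2))).trans ?_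
    rw [← ENNReal.ofReal_mul (Real.exp_pos _).le, ← ENNReal.ofReal_mul (pow_nonneg hM0 _)]
    refine ENNReal.ofReal_le_ofReal ?_
    have c1 := cst (d := d) (δ := δ) (b := (θ - 1) * ϑ / 2 + ϑ / 2 + 2 * τ + 64 * δ) hM0 hup (by
      unfold kap
      nlinarith)
    have c2 : Real.exp ((θ - 1) * (((d : ℝ) + 1) * ϑ / 2)) * MD K k ϑ (2 * τ) δ d =
        Real.exp (((θ - 1) * ϑ / 2 + ϑ / 2 + 2 * τ + 64 * δ) * ((d : ℝ) + 1)) * VH K k ϑ := by
      unfold MD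
      rw [← mul_assoc, ← Real.exp_add]
      congr 2
      ring
    calc Mo ν (θ / 2) ^ ((d + 1) * k) * (Real.exp ((θ - 1) * (((d : ℝ) + 1) * ϑ / 2)) *
          (MD K k ϑ (2 * τ) δ d *
            (a * a * (ad ϑ ω * ((d : ℝ) + 1) + 4) + Real.exp (2 * R + 8)))) =
        Mo ν (θ / 2) ^ ((d + 1) * k) * (Real.exp ((θ - 1) * (((d : ℝ) + 1) * ϑ / 2)) *
          MD K k ϑ (2 * τ) δ d) *
            (a * a * (ad ϑ ω * ((d : ℝ) + 1) + 4) + Real.exp (2 * R + 8)) := by ring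
      _ = (Mo ν (θ / 2) ^ ((d + 1) * k) *
          Real.exp (((θ - 1) * ϑ / 2 + ϑ / 2 + 2 * τ + 64 * δ) * ((d : ℝ) + 1))) * VH K k ϑ *
            (a * a * (ad ϑ ω * ((d : ℝ) + 1) + 4) + Real.exp (2 * R + 8)) := by
          rw [c2]
          ring
      _ ≤ Real.exp (-(kap ϑ ε θ τ δ * ((d : ℝ) + 1))) * VH K k ϑ *
            (a * a * (ad ϑ ω * ((d : ℝ) + 1) + 4) + Real.exp (2 * R + 8)) :=
          mul_le_mul_of_nonneg_right (mul_le_mul_of_nonneg_right c1 hV) hZ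
      _ = _ := by ring
  · have e1 : ∀ x : ℕ → ℝ,
        ENNReal.ofReal ((NL R (yk k ϑ x) R * NR R (yk k ϑ x) (R + d)) ^ (θ - 1)) *
          (ENNReal.ofReal (Sy k ϑ x (R * k) ((R + d + 1) * k)) *
          ENNReal.ofReal (Real.exp (θ * Sy k ϑ x (R * k) ((R + d + 1) * k)))) =
        ENNReal.ofReal ((NL R (yk k ϑ x) R * NR R (yk k ϑ x) (R + d)) ^ (θ - 1)) *
          (fun z => ENNReal.ofReal (Real.exp (θ / 2 * H z 0 ((d + 1) * k))) *
            (ENNReal.ofReal (Real.exp (θ * (((d : ℝ) + 1) * ϑ / 2))) *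
              (fun z => ENNReal.ofReal (Sy k ϑ z 0 ((d + 1) * k))) z)) (shift (R * k) x) := by
      intro x
      simp only
      rw [Sy_sh]
      generalize shift (R * k) x = z
      have h1 : ENNReal.ofReal (Real.exp (θ * Sy k ϑ z 0 ((d + 1) * k))) =
          ENNReal.ofReal (Real.exp (θ / 2 * H z 0 ((d + 1) * k))) *
            ENNReal.ofReal (Real.exp (θ * (((d : ℝ) + 1) * ϑ / 2))) := by
        rw [← ENNReal.ofReal_mul (Real.exp_pos _).le, ← Real.exp_add, Sy_eq hk]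
        congr 2
        ring
      rw [h1]
      congr 1
      ring
    rw [lintegral_congr e1, chg hexp (by omega) y1 yr hp
      (X := fun z => ENNReal.ofReal (Sy k ϑ z 0 ((d + 1) * k)))
      (ENNReal.measurable_ofReal.comp (meas_Sy k ϑ 0 _)) (by
        intro x x' hx
        simp only
        rw [dep_Sy k ϑ 0 _ x x' hx])]
    have b1 := (hPC1 _ k ϑ _ (2 * τ) ω pb).1 R d hR hRd f g mf df f1 mg dg g1
    have b2 : (∫⁻ x, f x ∂(iid (ν.tilted fun t => θ / 2 * t))) *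
        (∫⁻ x, g x ∂(iid (ν.tilted fun t => θ / 2 * t))) *
        ENNReal.ofReal (ad ϑ ω * (d + 1) + 4) + ENNReal.ofReal (Real.exp (2 * R + 8)) ≤
        ENNReal.ofReal (a * a * (ad ϑ ω * ((d : ℝ) + 1) + 4) + Real.exp (2 * R + 8)) := by
      rw [hsp]
      refine add_le_add (mul_le_mul' (mul_le_mul' ?_ ?_) le_rfl) le_rfl
      · rw [hf, mean_f hp z1]
        exact ENNReal.ofReal_le_ofReal ha0
      · rw [hg, mean_f hp zr]
        exact ENNReal.ofReal_le_ofReal ha0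
    refine (mul_le_mul' le_rfl (mul_le_mul' le_rfl (b1.trans b2))).trans ?_
    rw [← ENNReal.ofReal_mul (Real.exp_pos _).le, ← ENNReal.ofReal_mul (pow_nonneg hM0 _)]
    refine ENNReal.ofReal_le_ofReal ?_
    have hτ := h.τ0
    have c1 := cst (d := d) (δ := δ) (b := θ * ϑ / 2) hM0 hup (by
      unfold kap
      nlinarith)
    calc Mo ν (θ / 2) ^ ((d + 1) * k) * (Real.exp (θ * (((d : ℝ) + 1) * ϑ / 2)) *
          (a * a * (ad ϑ ω * ((d : ℝ) + 1) + 4) + Real.exp (2 * R + 8))) =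
        (Mo ν (θ / 2) ^ ((d + 1) * k) * Real.exp (θ * ϑ / 2 * ((d : ℝ) + 1))) *
            (a * a * (ad ϑ ω * ((d : ℝ) + 1) + 4) + Real.exp (2 * R + 8)) := by
          have c2 : θ * (((d : ℝ) + 1) * ϑ / 2) = θ * ϑ / 2 * ((d : ℝ) + 1) := by ring
          rw [c2]
          ring
      _ ≤ _ := mul_le_mul_of_nonneg_right c1 hZ

end Pool.Agent.H76.EX
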