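import Pool.Agent.H98.EX.LTargets
import Pool.Agent.H98.CE.ASM

/-!
# Row LOY of the board exa_modules: the lower bound for `α = 1` (helper76)
-/

set_option autoImplicit false

open MeasureTheory ProbabilityTheory Filter Topology
open scoped ENNReal
open Pool.Agent.H95 Pool.Agent.H95.Cop
open Pool.Agent.H55.CG (VV Mo)
open Pool.Agent.H96.Cop (chargeLaw)
open Pool.Agent.H98.CE (pc WB HK OBJ)
open Pool.Agent.H98.EX

namespace Pool.Agent.H76.EX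

/-- the number of the sites of a cell tends to infinity -/
lemma tendsto_cell {ϑ : ℝ} (hϑ : 0 < ϑ) :
    Tendsto (fun lam : ℝ => ⌈ϑ / lam ^ 2⌉₊) (𝓝[>] (0 : ℝ)) atTop := by
  have h1 : Tendsto (fun lam : ℝ => ϑ / lam ^ 2) (𝓝[>] (0 : ℝ)) atTop := by
    have h2 : Tendsto (fun lam : ℝ => lam ^ 2) (𝓝[>] (0 : ℝ)) (𝓝[>] (0 : ℝ)) := by
      rw [tendsto_nhdsWithin_iff]
      refine ⟨?_, ?_⟩
      · have : Tendsto (fun lam : ℝ => lam ^ 2) (𝓝 (0 : ℝ)) (𝓝 (0 ^ 2)) :=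
          (continuous_pow 2).tendsto 0
        rw [zero_pow two_ne_zero] at this
        exact this.mono_left nhdsWithin_le_nhds
      · filter_upwards [self_mem_nhdsWithin] with lam hlam
        have hlam1 : 0 < lam := hlam
        exact pow_pos hlam1 2
    have h3 : Tendsto (fun lam : ℝ => (lam ^ 2)⁻¹) (𝓝[>] (0 : ℝ)) atTop :=
      tendsto_inv_nhdsGT_zero.comp h2
    simp_rw [div_eq_mul_inv]
    exact h3.const_mul_atTop hϑ
  exact tendsto_nat_ceil_atTop.comp h1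

/-- logarithm of the number of the sites of a cell -/
lemma log_cell {ϑ lam : ℝ} (hϑ : 0 < ϑ) (hϑ1 : ϑ ≤ 1 / 2) (h0 : 0 < lam) (h1 : lam ≤ 1 / 2) :
    Real.log ⌈ϑ / lam ^ 2⌉₊ ≤ 2 * Real.log (1 / lam) := by
  have hl : 0 < 1 / lam := by positivity
  have hc : (0 : ℝ) < ⌈ϑ / lam ^ 2⌉₊ := by
    have : 0 < ⌈ϑ / lam ^ 2⌉₊ := Nat.ceil_pos.mpr (by positivity)
    exact_mod_cast this
  have h2 : 2 ≤ 1 / lam := by
    rw [le_div_iff₀ h0]
    linarith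
  have h3 : (⌈ϑ / lam ^ 2⌉₊ : ℝ) ≤ (1 / lam) ^ 2 := by
    have h4 : (⌈ϑ / lam ^ 2⌉₊ : ℝ) < ϑ / lam ^ 2 + 1 := Nat.ceil_lt_add_one (by positivity)
    have h5 : ϑ / lam ^ 2 = ϑ * (1 / lam) ^ 2 := by
      rw [div_pow, one_pow]
      ring
    have h6 : ϑ * (1 / lam) ^ 2 ≤ 1 / 2 * (1 / lam) ^ 2 :=
      mul_le_mul_of_nonneg_right hϑ1 (by positivity)
    have h7 : 4 ≤ (1 / lam) ^ 2 := by nlinarith
    linarith
  calc Real.log ⌈ϑ / lam ^ 2⌉₊ ≤ Real.log ((1 / lam) ^ 2) := Real.log_le_log hc h3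
    _ = 2 * Real.log (1 / lam) := by rw [Real.log_pow]; norm_num

/-- the constant -/
lemma ks_eq : ks * (1 / 2) ^ (1 / 4 : ℝ) = 1 / (4 * Real.sqrt Real.pi) := by
  have hπ := Real.pi_pos
  have h2 : (0 : ℝ) < Real.sqrt 2 := by positivity
  unfold ks
  have h1 : ((1 : ℝ) / 2) ^ (1 / 4 : ℝ) = (Real.sqrt 2) ^ (-(1 / 2) : ℝ) := by
    rw [Real.sqrt_eq_rpow, ← Real.rpow_mul (by norm_num), one_div (2 : ℝ),
      Real.inv_rpow (by norm_num), ← Real.rpow_neg (by norm_num)]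
    norm_num
  rw [h1, ← Real.mul_rpow (by positivity) (by positivity)]
  have h3 : 8 * Real.sqrt 2 * Real.pi * Real.sqrt 2 = (4 * Real.sqrt Real.pi) ^ 2 := by
    have e1 : Real.sqrt 2 * Real.sqrt 2 = 2 := Real.mul_self_sqrt (by norm_num)
    have e2 : Real.sqrt Real.pi ^ 2 = Real.pi := Real.sq_sqrt hπ.le
    rw [mul_pow, e2]
    nlinarith
  rw [h3, Real.rpow_neg (by positivity), ← Real.sqrt_eq_rpow, Real.sqrt_sq (by positivity),
    one_div]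

lemma ks_pos : 0 < ks := by
  unfold ks
  have := Real.pi_pos
  positivity

/-- the scale tends to `0` -/
lemma tendsto_x {ϑ : ℝ} (hϑ : 0 < ϑ) : Tendsto
    (fun lam : ℝ => (1 / Real.log ⌈ϑ / lam ^ 2⌉₊) ^ (1 / 4 : ℝ)) (𝓝[>] (0 : ℝ)) (𝓝 0) := by
  have h1 : Tendsto (fun lam : ℝ => Real.log ⌈ϑ / lam ^ 2⌉₊) (𝓝[>] (0 : ℝ)) atTop :=
    Real.tendsto_log_atTop.comp (tendsto_natCast_atTop_atTop.comp (tendsto_cell hϑ))
  have h2 : Tendsto (fun lam : ℝ => 1 / Real.log ⌈ϑ / lam ^ 2⌉₊) (𝓝[>] (0 : ℝ)) (𝓝 0) := by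
    simp_rw [one_div (Real.log _)]
    exact tendsto_inv_atTop_zero.comp h1
  have h3 := h2.rpow_const (p := (1 / 4 : ℝ)) (Or.inr (by norm_num))
  rwa [Real.zero_rpow (by norm_num)] at h3

lemma evl {a : ℝ} (ha : 0 < a) : ∀ᶠ lam in 𝓝[>] (0 : ℝ), lam * Real.log (1 / lam) < a := by
  have h1 : Tendsto (fun lam : ℝ => 1 / lam) (𝓝[>] (0 : ℝ)) atTop := by
    simp_rw [one_div]
    exact tendsto_inv_nhdsGT_zero
  have h2 := (Real.tendsto_pow_log_div_mul_add_atTop 1 0 1 one_ne_zero).comp h1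
  have h3 : ∀ᶠ lam in 𝓝[>] (0 : ℝ),
      Real.log (1 / lam) ^ 1 / (1 * (1 / lam) + 0) < a := h2.eventually (Iio_mem_nhds ha)
  filter_upwards [h3, self_mem_nhdsWithin] with lam h hl
  have hl0 : 0 < lam := hl
  have e : Real.log (1 / lam) ^ 1 / (1 * (1 / lam) + 0) = lam * Real.log (1 / lam) := by
    rw [pow_one, one_mul, add_zero, div_div_eq_mul_div, div_one, mul_comm]
  rwa [e] at h

theorem pf_LOY (hEND : Pool.Agent.H98.CE.T_END) (hTLQ : Pool.Agent.H98.SLN.T_TLQ)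
    (hKRY : T_KRY) (hPLM : T_PLM) (hHKX : T_HKX) (hLFX : T_LFX) : T_LOY := by
  intro e0 he0 K hKz cK hcK hK μ hμ hexp hmean hvar
  have hks := ks_pos
  obtain ⟨e1, he1⟩ : ∃ e1 : ℝ, e1 = min e0 (ks / 2) := ⟨_, rfl⟩
  have e1pos : 0 < e1 := by rw [he1]; exact lt_min he0 (by linarith)
  have e1e0 : e1 ≤ e0 := by rw [he1]; exact min_le_left _ _
  have e1ks : e1 ≤ ks / 2 := by rw [he1]; exact min_le_right _ _
  obtain ⟨kl, hkl⟩ : ∃ kl : ℝ, kl = ks - e1 := ⟨_, rfl⟩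
  have kl0 : 0 < kl := by rw [hkl]; linarith
  obtain ⟨ϑ, r, U, x0, hϑ0, hϑ1, hr0, hr1, hU, hx0, hL⟩ := hLFX kl kl0 (by rw [hkl]; linarith)
  have hϑ2 : ϑ ≤ 1 / 2 := hϑ1.trans (by norm_num)
  obtain ⟨C, lam0, hC, hlam0, hP⟩ := hPLM μ hexp hmean hvar ϑ U hϑ0 (by linarith) (by linarith)
  have ev1 := (tendsto_cell hϑ0).eventually (hKRY r hr0 (by linarith) K hKz cK hcK hK)
  have ev2 := (tendsto_x hϑ0).eventually (Iio_mem_nhds hx0)
  have ev3 := (tendsto_x hϑ0).eventually (Iio_mem_nhds (by positivity : 0 < 1 / (8 * kl)))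
  have ev4 := (tendsto_cell hϑ0).eventually (eventually_ge_atTop ⌈8 / r⌉₊)
  have ev5 := evl (by positivity : 0 < 1 / (2 * C))
  have ev6 : ∀ᶠ lam in 𝓝[>] (0 : ℝ), lam < min lam0 (1 / 2) :=
    mem_nhdsWithin_of_mem_nhds (Iio_mem_nhds (lt_min hlam0 (by norm_num)))
  filter_upwards [ev1, ev2, ev3, ev4, ev5, ev6, self_mem_nhdsWithin] with lam hR h2 h3 h4 h5 h6
    hpos
  have hl0 : 0 < lam := hpos
  have hl1 : lam < lam0 := h6.trans_le (min_le_left _ _)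
  have hl2 : lam < 1 / 2 := h6.trans_le (min_le_right _ _)
  have hlog := log_cell hϑ0 hϑ2 hl0 hl2.le
  obtain ⟨k, hk⟩ : ∃ k : ℕ, k = ⌈ϑ / lam ^ 2⌉₊ := ⟨_, rfl⟩
  have hP' := hP lam
  simp only [← hk] at hR h2 h3 h4 hlog hP'
  have hδ0 := hR.rg.δ0
  have hlogpos : 0 < Real.log k := one_div_pos.mp hδ0
  have hL0 : 0 < Real.log (1 / lam) := by linarith
  obtain ⟨x, hx⟩ : ∃ x : ℝ, x = (1 / Real.log k) ^ (1 / 4 : ℝ) := ⟨_, rfl⟩
  rw [← hx] at h2 h3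
  have hx4 : x ^ 4 = 1 / Real.log k := by
    rw [hx, ← Real.rpow_natCast, ← Real.rpow_mul hδ0.le]
    norm_num
  have hxpos : 0 < x := by rw [hx]; exact Real.rpow_pos_of_pos hδ0 _
  rw [← hx4] at hR
  have hklx : kl * x ≤ 1 / 8 := by
    have h7 : kl * x ≤ kl * (1 / (8 * kl)) := mul_le_mul_of_nonneg_left h3.le kl0.le
    have h8 : kl * (1 / (8 * kl)) = 1 / 8 := by field_simp
    linarith
  have hlm := hP' (kl * x) 1 hl0 hl1 (by positivity) hklx (by norm_num) le_rfl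
  have hτ : C * lam ≤ x ^ 4 := by
    rw [hx4, le_div_iff₀ hlogpos]
    have h7 : C * lam * Real.log k ≤ C * lam * (2 * Real.log (1 / lam)) :=
      mul_le_mul_of_nonneg_left hlog (by positivity)
    have h8 : 2 * C * (lam * Real.log (1 / lam)) ≤ 2 * C * (1 / (2 * C)) :=
      mul_le_mul_of_nonneg_left h5.le (by positivity)
    have h9 : 2 * C * (1 / (2 * C)) = 1 := by field_simp
    nlinarith
  have hkr : 8 ≤ r * k := by
    have h7 : 8 / r ≤ k := (Nat.le_ceil _).trans (by exact_mod_cast h4)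
    rw [div_le_iff₀ hr0] at h7
    linarith
  have hLX : LX K (chargeLaw μ lam ((3 / 4 + kl * x) * lam)) 1 cK x r ϑ kl (C * lam) U k _ :=
    ⟨hR, hlm, hkr, by positivity, hτ⟩
  obtain ⟨n, s', hn, hs', hlt⟩ := hL x hxpos h2 K _ 1 cK (C * lam) k _ hLX
  obtain ⟨hℓ1, hqℓ, -⟩ := hTLQ K 1 cK _ k _ hR.rg
  obtain ⟨hHK, hκ, -⟩ := hHKX K 1 cK _ r k _ hR
  have hr2 : 0 < 1 - r := by linarith
  have hκ1 : (1 - r) ^ 2 * x ^ 4 / 4 ≤ 1 := by
    have h7 := hR.rg.δ1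
    have h8 : (1 - r) ^ 2 ≤ 1 := by nlinarith
    have h9 : (1 - r) ^ 2 * x ^ 4 ≤ 1 * x ^ 4 := mul_le_mul_of_nonneg_right h8 (by positivity)
    linarith
  obtain ⟨f, hf0, hf⟩ := hEND 1 one_pos K hKz cK hcK hK μ hexp ((1 - r) * cK) _ (by positivity)
    hR.lo k n ((1 - r) ^ 2 * x ^ 4 / 4) lam ((3 / 4 + kl * x) * lam) s' hℓ1 hqℓ
    (by positivity) hκ1 hHK hκ hn hs' hlt
  have hsup : (3 / 4 + kl * x) * lam ≤ criticalCurve K μ lam :=
    le_csSup (localized_bddAbove μ K hexp lam hl0) ⟨by positivity, f, hf0, hf⟩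
  rw [le_div_iff₀ hl0]
  refine le_trans ?_ hsup
  refine mul_le_mul_of_nonneg_right ?_ hl0.le
  have hxl : (1 / 2) ^ (1 / 4 : ℝ) * Real.log (1 / lam) ^ (-(1 / 4) : ℝ) ≤ x := by
    have h7 : (1 / (2 * Real.log (1 / lam))) ^ (1 / 4 : ℝ) ≤ x := by
      rw [hx]
      exact Real.rpow_le_rpow (by positivity)
        (one_div_le_one_div_of_le hlogpos hlog) (by norm_num)
    have h8 : (1 / (2 * Real.log (1 / lam))) ^ (1 / 4 : ℝ) =
        (1 / 2) ^ (1 / 4 : ℝ) * Real.log (1 / lam) ^ (-(1 / 4) : ℝ) := by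
      have h9 : 1 / (2 * Real.log (1 / lam)) = 1 / 2 * (Real.log (1 / lam))⁻¹ := by
        field_simp
      rw [h9, Real.mul_rpow (by norm_num) (by positivity), Real.rpow_neg hL0.le,
        Real.inv_rpow hL0.le]
    linarith
  have hy0 : 0 < Real.log (1 / lam) ^ (-(1 / 4) : ℝ) := Real.rpow_pos_of_pos hL0 _
  have h10 : kl * ((1 / 2) ^ (1 / 4 : ℝ) * Real.log (1 / lam) ^ (-(1 / 4) : ℝ)) ≤ kl * x :=
    mul_le_mul_of_nonneg_left hxl kl0.le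
  have h11 : 1 / (4 * Real.sqrt Real.pi) - e0 ≤ kl * (1 / 2) ^ (1 / 4 : ℝ) := by
    have h12 : ((1 : ℝ) / 2) ^ (1 / 4 : ℝ) ≤ 1 :=
      Real.rpow_le_one (by norm_num) (by norm_num) (by norm_num)
    have h13 : e1 * (1 / 2) ^ (1 / 4 : ℝ) ≤ e1 * 1 := mul_le_mul_of_nonneg_left h12 e1pos.le
    have h14 := ks_eq
    rw [hkl, sub_mul, h14]
    linarith
  have h15 := mul_le_mul_of_nonneg_right h11 hy0.le
  linarith

end Pool.Agent.H76.EX
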